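import Mathlib
import Pool.Agent.R493.MU.Mult
/-!
# The multipliers `m` for which `q` and `m (q - 1) + 1` are often prime have multiplicative density `≥ 1/3`

`2 q - 1 = m (q - 1) + 1` for `m = 2`. Let `G` be the set of the multipliers `m` such that `m (q - 1) + 1` is
prime for infinitely many primes `q`, more precisely for at least `x / (log x) ^ B` primes `q ≤ x` for
arbitrarily large `x`. The theorem (for `R = 1`, `c = 1`) says that `G` has lower Banach density at least
`1/3` in the multiplicative semigroup of the positive integers: every finite set `F` of positive integers which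
is almost invariant under the multiplication with each of the numbers `s ≤ n`, for instance every box
`{∏ p ^ e_p : u_p < e_p ≤ u_p + T_p for p ≤ n}` with large `T_p` and arbitrary `u_p`, contains at least
`(1/3 - ε)|F|` elements of `G`.

In general, `R` constants `c ≠ 0` are treated simultaneously: the set of the `m` prime to all of them for
which, for every one of them, `m (q - c) + c` is prime for many primes `q` has lower Banach density at least
`1 / w R` in the semigroup of the positive integers prime to the `c`, where `w 1 = 3`, `w 2 = 10`, `w 3 = 36`,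
..., `w R ≤ (18 / 5) ^ R`. For example (`R = 2`, `c = 1, -1`), at least one tenth of the `m` are such that both
`m (q - 1) + 1` and `m (q + 1) - 1` are prime for many primes `q`.

The theorem on classes of linear forms with the constant `18 / 5` (`Pool.Agent.Y827.RO.lamRD`) is from the
starting files.
-/

namespace Pool.Agent.Results.MP_0fefc4_nt.DensityOfMultipliers

open Finset Filter

/-- There are infinitely many primes `q` for which `m (q - c) + c` is prime; moreover, for arbitrarily large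
`x` there are at least `x / (log x) ^ B` such primes `q ≤ x`. -/
def Good (B : ℕ) (c : ℤ) (m : ℕ) : Prop :=
  {q : ℕ | q.Prime ∧ ∃ p : ℕ, p.Prime ∧ (p : ℤ) = m * ((q : ℤ) - c) + c}.Infinite ∧
  ∃ᶠ x : ℕ in atTop, (x : ℝ) / (Real.log x) ^ B ≤
    ({q : ℕ | q ≤ x ∧ q.Prime ∧ ∃ p : ℕ, p.Prime ∧ (p : ℤ) = m * ((q : ℤ) - c) + c}.ncard : ℝ)

/-- `w 0 = 1` and `w (R + 1) = ⌊18 * w R / 5⌋`: the numbers `1, 3, 10, 36, 129, ...` -/
def w : ℕ → ℕ
  | 0 => 1
  | R + 1 => 18 * w R / 5

theorem w_eq (R : ℕ) : w R = Pool.Agent.R493.SI.mR R := by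
  induction R with
  | zero => rfl
  | succ R ih =>
    show 18 * w R / 5 = 18 * Pool.Agent.R493.SI.mR R / 5
    rw [ih]

theorem good_of {B : ℕ} {c : ℤ} {m : ℕ} (h : Pool.Agent.R493.OT.Many B (c - (m : ℤ) * c) (m : ℤ)) :
    Good B c m := by
  have e : ∀ q : ℕ, (∃ p : ℕ, p.Prime ∧ c - (m : ℤ) * c + q * (m : ℤ) = p) ↔
      ∃ p : ℕ, p.Prime ∧ (p : ℤ) = m * ((q : ℤ) - c) + c := by
    intro q
    apply exists_congr
    intro p
    apply and_congr_right
    intro _
    rw [show (m : ℤ) * ((q : ℤ) - c) + c = c - (m : ℤ) * c + q * (m : ℤ) by ring]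
    exact eq_comm
  unfold Pool.Agent.R493.OT.Many at h
  simp only [e] at h
  exact h

open Classical in
theorem result (R : ℕ) : ∃ B : ℕ, ∀ c : Fin R → ℤ, (∀ ρ, c ρ ≠ 0) → ∀ ε : ℝ, 0 < ε →
    ∃ n : ℕ, ∀ F : Finset ℕ, F.Nonempty →
      (∀ m ∈ F, 0 < m ∧ ∀ ρ, IsCoprime (m : ℤ) (c ρ)) →
      (∀ s : ℕ, 1 ≤ s → s ≤ n → (∀ ρ, IsCoprime (s : ℤ) (c ρ)) →
        (1 - 1 / (n : ℝ)) * F.card ≤ ((F.filter (fun m => s * m ∈ F)).card : ℝ)) →
      (1 / (w R : ℝ) - ε) * F.card ≤ ((F.filter (fun m => ∀ ρ, Good B (c ρ) m)).card : ℝ) := by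
  obtain ⟨B, h⟩ := Pool.Agent.R493.MU.mult R
  refine ⟨B, fun c hc ε hε => ?_⟩
  obtain ⟨n, hn⟩ := h c hc ε hε
  refine ⟨n, fun F hF hFc hinv => ?_⟩
  rw [w_eq]
  refine (hn F hF hFc hinv).trans ?_
  rw [Nat.cast_le]
  apply card_le_card
  intro m hm
  obtain ⟨h1, h2⟩ := mem_filter.1 hm
  exact mem_filter.2 ⟨h1, fun ρ => good_of (h2 ρ)⟩

end Pool.Agent.Results.MP_0fefc4_nt.DensityOfMultipliers
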