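import Mathlib
import Pool.Agent.R493.EX.Exact
/-!
# The exact positions of the primes in the orbits of `x ↦ 2 x - 1`

Let `S x = 2 x - 1`. For every `R` and every large `x` there is a nonempty set `T` of times, contained in
`{1, ..., 44}`, such that there are many primes `q ≤ x` for which, among the numbers `S^j(q)`,
`1 ≤ j ≤ R`, exactly those with `j ∈ T` are prime, and none of the numbers `S^(-j)(q)`, `1 ≤ j ≤ R`, is a
prime; and there is one such `T` which serves arbitrarily large `x` for every `R`.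

The theorem on 45 linear forms, with exactness and with the count `x / (log x) ^ B`
(`Pool.Agent.Y876.FF`), is from the starting files.
-/

namespace Pool.Agent.Results.MP_0fefc4_nt.ExactPositions

open Finset Filter

/-- the map `x ↦ 2 x - 1` -/
def S (x : ℕ) : ℕ := 2 * x - 1

/-- The number of the primes `q ≤ x` such that, for all `1 ≤ j ≤ R`, the number `S^j(q)` is prime if and
only if `j ∈ T`, and `q` is not `S^j(q')` for any prime `q'`. -/
noncomputable def count (T : Finset ℕ) (R : ℕ) (x : ℝ) : ℕ :=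
  {q : ℕ | (q : ℝ) ≤ x ∧ q.Prime ∧ (∀ j ∈ Icc 1 R, ((S^[j] q).Prime ↔ j ∈ T)) ∧
    ∀ j ∈ Icc 1 R, ∀ q' : ℕ, q'.Prime → S^[j] q' ≠ q}.ncard

theorem iter {q : ℕ} (hq : 1 ≤ q) (j : ℕ) :
    1 ≤ S^[j] q ∧ ((S^[j] q : ℕ) : ℤ) = (-1) * ∑ i ∈ range j, (2 : ℤ) ^ i + q * 2 ^ j := by
  induction j with
  | zero => exact ⟨hq, by simp⟩
  | succ j ih =>
    obtain ⟨h1, ih⟩ := ih
    rw [Function.iterate_succ_apply', Finset.sum_range_succ']
    have h2 : ((S (S^[j] q) : ℕ) : ℤ) = 2 * ((S^[j] q : ℕ) : ℤ) - 1 := by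
      have h3 : S (S^[j] q) = 2 * S^[j] q - 1 := rfl
      omega
    refine ⟨by omega, ?_⟩
    rw [h2, ih]
    simp only [pow_succ]
    rw [← Finset.sum_mul]
    ring

theorem cnt_eq (T : Finset ℕ) (R : ℕ) (x : ℝ) :
    Pool.Agent.R493.EX.cnt (-1) 2 0 T R x = count T R x := by
  unfold Pool.Agent.R493.EX.cnt count
  congr 1
  ext q
  simp only [Set.mem_ofPred_eq, zero_add]
  refine and_congr_right fun _ => and_congr_right fun hq => and_congr ?_ ?_
  · refine forall₂_congr fun j _ => ?_
    rw [← (iter hq.one_le j).2]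
    constructor
    · intro h
      rw [← h]
      exact ⟨fun h1 => ⟨_, h1, rfl⟩, fun ⟨p, hp, he⟩ => by
        have : S^[j] q = p := by exact_mod_cast he
        rwa [this]⟩
    · intro h
      rw [← h]
      exact ⟨fun ⟨p, hp, he⟩ => by
        have : S^[j] q = p := by exact_mod_cast he
        rwa [this], fun h1 => ⟨_, h1, rfl⟩⟩
  · refine forall₄_congr fun j _ q' hq' => ?_
    rw [← (iter hq'.one_le j).2]
    exact not_congr Nat.cast_inj

theorem result : ∃ B : ℕ,
    (∀ R : ℕ, ∀ᶠ x : ℝ in atTop, ∃ T : Finset ℕ, T.Nonempty ∧ T ⊆ Icc 1 44 ∧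
        x / Real.log x ^ B ≤ count T R x) ∧
      ∃ T : Finset ℕ, T.Nonempty ∧ T ⊆ Icc 1 44 ∧ ∀ R : ℕ, ∃ᶠ x : ℝ in atTop,
        x / Real.log x ^ B ≤ count T R x := by
  have h := Pool.Agent.R493.EX.patterns (-1) 2 (by norm_num) (by decide) (by decide) (by decide)
    (range 45) (card_range 45) (m := 44) (by
      intro e he
      have := mem_range.1 he
      omega) (by
      intro p hp h3 h43 h4 _
      exfalso
      have h5 : (p : ℤ) ∣ 1 := by simpa using h4
      exact (Nat.prime_iff_prime_int.1 hp).not_isUnit (isUnit_of_dvd_one h5))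
  simp only [cnt_eq] at h
  exact ⟨_, h⟩

end Pool.Agent.Results.MP_0fefc4_nt.ExactPositions
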