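import Mathlib
import Pool.Agent.R463.NarLin

set_option autoImplicit false

/-!
# Narrow progressions in arbitrary sets of `n` with `n` and `2 n - 1` prime or almost prime
-/

namespace Pool.Agent.Results.MP_0fefc4_nt.NarrowProgressions

open Finset Filter

/-- The `n ≥ 1` such that all prime factors of `n` and of `2 n - 1` are larger than `n ^ (1 / r)`. For
`r ≥ 2` it contains all primes `n` with `2 n - 1` prime. -/
def RoughPair (r : ℕ) : Set ℕ :=
  {n | 1 ≤ n ∧ ∀ p : ℕ, p.Prime → (p ∣ n ∨ p ∣ 2 * n - 1) → (n : ℝ) ^ (1 / (r : ℝ)) < (p : ℝ)}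

/-- `n` is a term of an `l`-term arithmetic progression with difference at most `D`, all terms of which
are elements of `A` in the interval `(a, b]`. -/
def InProgression (A : Set ℕ) (l : ℕ) (D : ℝ) (a b n : ℕ) : Prop :=
  ∃ u d : ℕ, 1 ≤ d ∧ (d : ℝ) ≤ D ∧ (∀ i < l, u + i * d ∈ A ∧ a < u + i * d ∧ u + i * d ≤ b) ∧
    ∃ i < l, n = u + i * d

theorem prime_sub {r : ℕ} (hr : 2 ≤ r) : {n : ℕ | n.Prime ∧ (2 * n - 1).Prime} ⊆ RoughPair r := by
  rintro n ⟨h1, h2⟩
  refine ⟨h1.one_lt.le, fun p hp hd => ?_⟩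
  have hnp : n ≤ p := by
    rcases hd with hd | hd
    · rw [(Nat.prime_dvd_prime_iff_eq hp h1).1 hd]
    · have := h1.two_le
      rw [(Nat.prime_dvd_prime_iff_eq hp h2).1 hd]
      omega
  have hn1 : (1 : ℝ) < n := by exact_mod_cast h1.one_lt
  have hr2 : (2 : ℝ) ≤ r := by exact_mod_cast hr
  have h3 : (n : ℝ) ^ (1 / (r : ℝ)) < n := by
    have h4 : (1 / (r : ℝ)) < 1 := by
      rw [div_lt_one (by linarith)]
      linarith
    have := Real.rpow_lt_rpow_of_exponent_lt hn1 h4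
    rwa [Real.rpow_one] at this
  exact h3.trans_le (by exact_mod_cast hnp)

/-- the leading coefficients -/
def ca : Fin 2 → ℕ := ![1, 2]

/-- the constant terms -/
def cb : Fin 2 → ℤ := ![0, -1]

lemma ex_iff (p n : ℕ) : (∃ i, (p : ℤ) ∣ (ca i : ℤ) * n + cb i) ↔ (p ∣ n ∨ p ∣ 2 * n - 1) := by
  rw [Fin.exists_fin_two]
  have e0 : (ca 0 : ℤ) * (n : ℤ) + cb 0 = (n : ℤ) := by simp [ca, cb]
  rw [e0, Int.natCast_dvd_natCast]
  rcases Nat.eq_zero_or_pos n with h | h
  · subst h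
    simp
  · have e1 : (ca 1 : ℤ) * (n : ℤ) + cb 1 = ((2 * n - 1 : ℕ) : ℤ) := by
      rw [Nat.cast_sub (by omega)]
      simp [ca, cb]
      ring
    rw [e1, Int.natCast_dvd_natCast]

open Classical in
/-- **Narrow progressions.** Let `θ > 0`, `r, l ≥ 2` and `ε > 0`. There is an exponent `B` such that for
all large `X`, all `X ^ θ ≤ Y ≤ X` and EVERY set `A` of numbers `n` such that neither `n` nor `2 n - 1`
has a prime factor `≤ n ^ (1 / r)`, for instance every set of primes `n` with `2 n - 1` prime: all but at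
most `ε Y / log ^ 2 X` of the elements of `A` in `(X, X + Y]` are terms of `l`-term arithmetic
progressions, contained in the part of `A` in `(X, X + Y]`, with difference at most `(log X) ^ B`. -/
theorem result : (∀ r : ℕ, 2 ≤ r → {n : ℕ | n.Prime ∧ (2 * n - 1).Prime} ⊆ RoughPair r) ∧
    ∀ θ : ℝ, 0 < θ → ∀ r : ℕ, 2 ≤ r → ∀ l : ℕ, 2 ≤ l → ∀ ε : ℝ, 0 < ε →
    ∃ B : ℕ, ∀ᶠ X : ℕ in atTop, ∀ Y : ℕ, (X : ℝ) ^ θ ≤ Y → Y ≤ X →
      ∀ A : Set ℕ, A ⊆ RoughPair r →
        (((Ioc X (X + Y)).filter (fun n : ℕ =>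
          n ∈ A ∧ ¬ InProgression A l (Real.log X ^ B) X (X + Y) n)).card : ℝ) ≤
        ε * (Y / Real.log X ^ 2) := by
  refine ⟨fun r hr => prime_sub hr, ?_⟩
  intro θ hθ r hr l hl ε hε
  obtain ⟨B, hB⟩ := Pool.Agent.R463.NL.narrow_lin (k := 2) (by norm_num) ca cb
    (fun i => by fin_cases i <;> decide)
    (fun i => by
      fin_cases i
      · exact ⟨1, 0, by norm_num [ca, cb]⟩
      · exact ⟨0, -1, by norm_num [ca, cb]⟩)
    (fun i j h1 _ => by
      fin_cases i <;> fin_cases j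
      · rfl
      · exact absurd h1 (by decide)
      · exact absurd h1 (by decide)
      · rfl)
    (fun p hp => by
      refine ⟨1, fun i hi => ?_⟩
      rcases (ex_iff p 1).1 ⟨i, hi⟩ with h1 | h1
      · exact hp.one_lt.ne' (Nat.dvd_one.1 h1)
      · exact hp.one_lt.ne' (Nat.dvd_one.1 h1))
    θ hθ r hr l hl ε hε
  refine ⟨B, ?_⟩
  filter_upwards [hB] with X hX Y hXY hYX A hA
  refine hX Y hXY hYX A (fun n hn i p hp hd => ?_)
  exact (hA hn).2 p hp ((ex_iff p n).1 ⟨i, hd⟩)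

end Pool.Agent.Results.MP_0fefc4_nt.NarrowProgressions
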