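import Mathlib
import Pool.Agent.R463.LawX

set_option autoImplicit false

/-!
# The Poisson law after primes `q` with `2 q - 1` almost prime
-/

namespace Pool.Agent.Results.MP_0fefc4_nt.PoissonLaw

open Finset Filter

/-- neither `n` nor `2 n - 1` has a prime factor `p ≤ N ^ (1 / r)` -/
def Almost (N r n : ℕ) : Prop :=
  ∀ p : ℕ, p.Prime → (p : ℝ) ≤ (N : ℝ) ^ (1 / (r : ℝ)) → ¬ p ∣ n ∧ ¬ p ∣ 2 * n - 1

/-- `1` for `p = 2`, otherwise `2` -/
def nu (p : ℕ) : ℕ := if p = 2 then 1 else 2

/-- the product of `1 - nu(p) / p` over the primes `p ≤ N ^ (1 / r)` -/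
noncomputable def V (N r : ℕ) : ℝ :=
  ∏ p ∈ (Icc 1 ⌊(N : ℝ) ^ (1 / (r : ℝ))⌋₊).filter Nat.Prime, (1 - (nu p : ℝ) / p)

/-- the product of `(1 - nu(p) / p) / (1 - 1 / p)` over the primes `p ≤ N ^ (1 / r)` -/
noncomputable def W (N r : ℕ) : ℝ :=
  ∏ p ∈ (Icc 1 ⌊(N : ℝ) ^ (1 / (r : ℝ))⌋₊).filter Nat.Prime, (1 - (nu p : ℝ) / p) / (1 - 1 / (p : ℝ))

open Classical in
/-- the PRIMES `q` in `(A, A + L]`, `q > N ^ (1 / r)`, such that `2 q - 1` has no prime factor
`≤ N ^ (1 / r)` -/
noncomputable def P (N r A L : ℕ) : Finset ℕ := (Ioc A (A + L)).filter (fun q => q.Prime ∧ Almost N r q)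

open Classical in
/-- the number of the `l` in `(n, n + T]` such that neither `l` nor `2 l - 1` has a prime factor
`≤ N ^ (1 / r)` -/
noncomputable def Next (N r T n : ℕ) : ℕ := ((Ioc n (n + T)).filter (fun l => Almost N r l)).card

/-- the leading coefficients -/
def ca : Fin 2 → ℤ := ![1, 2]

/-- the constant terms -/
def cb : Fin 2 → ℤ := ![0, -1]

lemma ex_iff (p n : ℕ) : (∃ i, (p : ℤ) ∣ ca i * n + cb i) ↔ (p ∣ n ∨ p ∣ 2 * n - 1) := by
  rw [Fin.exists_fin_two]
  have e0 : ca 0 * (n : ℤ) + cb 0 = (n : ℤ) := by simp [ca, cb]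
  rw [e0, Int.natCast_dvd_natCast]
  rcases Nat.eq_zero_or_pos n with h | h
  · subst h
    simp
  · have e1 : ca 1 * (n : ℤ) + cb 1 = ((2 * n - 1 : ℕ) : ℤ) := by
      rw [Nat.cast_sub (by omega)]
      simp [ca, cb]
      ring
    rw [e1, Int.natCast_dvd_natCast]

open Pool.Agent.R463.LX in
lemma lx : Lx ca cb where
  pos := fun i => by fin_cases i <;> decide
  inj := fun i j hij => by
    fin_cases i <;> fin_cases j
    · rfl
    · exact absurd hij (by decide)
    · exact absurd hij (by decide)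
    · rfl
  cop := fun i => by
    fin_cases i
    · exact ⟨1, 0, by norm_num [ca, cb]⟩
    · exact ⟨0, -1, by norm_num [ca, cb]⟩
  adm := fun p hp => by
    refine ⟨1, fun i hi => ?_⟩
    rcases (ex_iff p 1).1 ⟨i, hi⟩ with h1 | h1
    · exact hp.one_lt.ne' (Nat.dvd_one.1 h1)
    · exact hp.one_lt.ne' (Nat.dvd_one.1 h1)
  base := ⟨0, by decide, by decide⟩

lemma almost_iff (N r n : ℕ) : Almost N r n ↔ Pool.Agent.R463.LX.Gd ca cb N r n := by
  unfold Almost Pool.Agent.R463.LX.Gd
  constructor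
  · intro h p hp hpN i hd
    rcases (ex_iff p n).1 ⟨i, hd⟩ with h1 | h1
    · exact (h p hp hpN).1 h1
    · exact (h p hp hpN).2 h1
  · intro h p hp hpN
    constructor
    · intro hd
      obtain ⟨i, hi⟩ := (ex_iff p n).2 (Or.inl hd)
      exact h p hp hpN i hi
    · intro hd
      obtain ⟨i, hi⟩ := (ex_iff p n).2 (Or.inr hd)
      exact h p hp hpN i hi

lemma nu_eq (p : ℕ) (hp : p.Prime) : nu p = Pool.Agent.R463.LX.nu ca cb p := by
  classical
  unfold nu Pool.Agent.R463.LX.nu
  have h1 : (range p).filter (fun n : ℕ => ∃ i, (p : ℤ) ∣ ca i * n + cb i) =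
      (range p).filter (fun n : ℕ => p ∣ n ∨ p ∣ 2 * n - 1) :=
    filter_congr fun n _ => ex_iff p n
  rw [h1]
  split_ifs with h2
  · subst h2
    decide
  · have hodd : p % 2 = 1 := by
      rcases hp.eq_two_or_odd with h | h
      · exact absurd h h2
      · exact h
    have hp2 := hp.two_le
    have hset : (range p).filter (fun n : ℕ => p ∣ n ∨ p ∣ 2 * n - 1) = {0, (p + 1) / 2} := by
      ext n
      rw [mem_filter, mem_range, mem_insert, mem_singleton]
      constructor
      · rintro ⟨hn, hd | hd⟩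
        · left
          exact Nat.eq_zero_of_dvd_of_lt hd hn
        · rcases Nat.eq_zero_or_pos n with h0 | h0
          · left; exact h0
          · right
            obtain ⟨t, ht⟩ := hd
            have h3 : t = 1 := by
              have h4 : t ≠ 0 := by
                rintro rfl
                omega
              have h5 : t < 2 := by
                by_contra hc
                push Not at hc
                have : p * 2 ≤ p * t := Nat.mul_le_mul_left p hc
                omega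
              omega
            subst h3
            omega
      · rintro (rfl | rfl)
        · exact ⟨hp.pos, Or.inl (dvd_zero p)⟩
        · refine ⟨by omega, Or.inr ?_⟩
          have : 2 * ((p + 1) / 2) - 1 = p := by omega
          rw [this]
    rw [hset, card_pair]
    omega

lemma V_eq (N r : ℕ) : V N r = Pool.Agent.R463.LX.V ca cb N r := by
  unfold V Pool.Agent.R463.LX.V
  apply prod_congr rfl
  intro p hp
  rw [nu_eq p (mem_filter.1 hp).2]

lemma W_eq (N r : ℕ) : W N r = Pool.Agent.R463.LX.W ca cb N r := by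
  unfold W Pool.Agent.R463.LX.W
  apply prod_congr rfl
  intro p hp
  rw [nu_eq p (mem_filter.1 hp).2]

lemma P_eq (N r A L : ℕ) : P N r A L = Pool.Agent.R463.LX.P ca cb N r A L := by
  classical
  unfold P Pool.Agent.R463.LX.P
  apply filter_congr
  intro n _
  rw [almost_iff]

lemma Next_eq (N r T n : ℕ) : Next N r T n = Pool.Agent.R463.LX.Next ca cb N r T n := by
  classical
  unfold Next Pool.Agent.R463.LX.Next
  congr 1
  apply filter_congr
  intro l _
  exact almost_iff N r l

/-- **The Poisson law after primes `q` with `2 q - 1` almost prime.** For all `θ, δ > 0`, `0 < ε ≤ 1` and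
`x₀` there is `r₀` such that for all `r ≥ r₀` and all large `N`:
(1) if `n ≤ N` is in `Almost`, then `n` and `2 n - 1` have at most `r` prime factors (with multiplicity);
conversely, `n > N ^ (1 / r)` is in `Almost` if `n` and `2 n - 1` are primes;
(2) for all `X ≥ N ^ θ` and all windows `(A, A + L] ⊆ (0, X]` of a length `L ≥ δ X`, the number of the
PRIMES `q` in the window which are in `Almost` is `(1 + η) L W / log X`, `|η| ≤ ε`, `W > 0`;
(3) for `T V ≤ x₀` the number of the `l` in `(q, q + T]` which are in `Almost`, `q` running over the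
primes in (2), has the Poisson law of mean `T V`, up to `ε`. -/
theorem result (θ δ : ℝ) (hθ : 0 < θ) (hδ : 0 < δ) (hδ1 : δ ≤ 1) (x₀ ε : ℝ) (hε : 0 < ε) (hε1 : ε ≤ 1) :
    ∃ r₀ : ℕ, ∀ r : ℕ, r₀ ≤ r → ∃ N₀ : ℕ, ∀ N : ℕ, N₀ ≤ N →
      (∀ n : ℕ, n ≤ N → Almost N r n →
        n.primeFactorsList.length ≤ r ∧ (2 * n - 1).primeFactorsList.length ≤ r) ∧
      (∀ n : ℕ, (N : ℝ) ^ (1 / (r : ℝ)) < n → n.Prime → (2 * n - 1).Prime → Almost N r n) ∧
      0 < V N r ∧ 0 < W N r ∧
      ∀ X : ℕ, (N : ℝ) ^ θ ≤ X → ∀ A L : ℕ, δ * X ≤ L → A + L ≤ X →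
        |((P N r A L).card : ℝ) * Real.log X - L * W N r| ≤ ε * (L * W N r) ∧
        ∀ T : ℕ, T * V N r ≤ x₀ → ∀ B : Finset ℕ,
          |(((P N r A L).filter (fun q => Next N r T q ∈ B)).card : ℝ) -
            (P N r A L).card * ∑ j ∈ B, Real.exp (-(T * V N r)) * (T * V N r) ^ j / j.factorial| ≤
            ε * (P N r A L).card := by
  classical
  obtain ⟨r₀, hr₀, H⟩ := Pool.Agent.R463.LX.law ca cb lx θ δ hθ hδ hδ1 x₀ ε hε hε1
  refine ⟨r₀, fun r hr => ?_⟩
  obtain ⟨N₀, H⟩ := H r hr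
  refine ⟨N₀, fun N hN => ?_⟩
  obtain ⟨H1, H2, H3, H4⟩ := H N hN
  refine ⟨?_, ?_, by rw [V_eq]; exact H2, by rw [W_eq]; exact H3, ?_⟩
  · intro n hn hg
    have h0 := H1 n hn ((almost_iff N r n).1 hg) 0
    have h1 := H1 n hn ((almost_iff N r n).1 hg) 1
    have e0 : ca 0 * (n : ℤ) + cb 0 = (n : ℤ) := by simp [ca, cb]
    rw [e0, Int.natAbs_natCast] at h0
    rcases Nat.eq_zero_or_pos n with hn0 | hn0
    · subst hn0
      simp
    · have e1 : ca 1 * (n : ℤ) + cb 1 = ((2 * n - 1 : ℕ) : ℤ) := by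
        rw [Nat.cast_sub (by omega)]
        simp [ca, cb]
        ring
      rw [e1, Int.natAbs_natCast] at h1
      exact ⟨h0, h1⟩
  · intro n hn hp1 hp2 p hp hpN
    constructor
    · intro hd
      rw [(Nat.prime_dvd_prime_iff_eq hp hp1).1 hd] at hpN
      linarith
    · intro hd
      have h3 := hp1.two_le
      have h4 : n ≤ p := by
        rw [(Nat.prime_dvd_prime_iff_eq hp hp2).1 hd]
        omega
      have : (n : ℝ) ≤ p := by exact_mod_cast h4
      linarith
  · intro X hX A L hL hAL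
    obtain ⟨G1, G2⟩ := H4 X hX A L hL hAL
    rw [W_eq, V_eq, P_eq]
    refine ⟨G1, ?_⟩
    intro T hT B
    have h8 := G2 T hT B
    simp only [Next_eq]
    exact h8

end Pool.Agent.Results.MP_0fefc4_nt.PoissonLaw
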